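import Pool.Agent.H226R.NU.Unital

set_option autoImplicit false

/-!
# MP_bc9e10_co: triple systems without 2-regular subgraphs on six vertices which beat the star
-/

open Finset Pool.Agent.H226R.NU

namespace Pool.Agent.Results.MP_bc9e10_co.NestedUnitals

/-- `H` is a `k`-uniform hypergraph -/
def Uniform {V : Type} (k : ℕ) (H : Finset (Finset V)) : Prop := ∀ e ∈ H, e.card = k

/-- the set of the vertices which lie in an edge of `F` -/
def vertices {V : Type} [DecidableEq V] (F : Finset (Finset V)) : Finset V := F.sup id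

/-- every vertex of `F` lies in exactly two edges of `F` -/
def TwoRegular {V : Type} [DecidableEq V] (F : Finset (Finset V)) : Prop :=
  ∀ v ∈ vertices F, (F.filter (fun e => v ∈ e)).card = 2

/-- `H` has no 2-regular subgraph on `2k` vertices -/
def NoTwoRegular {V : Type} [DecidableEq V] (k : ℕ) (H : Finset (Finset V)) : Prop :=
  ∀ F ⊆ H, TwoRegular F → (vertices F).card ≠ 2 * k

/-- `H` is a full `k`-star with some centre `v` together with a maximal matching omitting `v` -/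
def IsStarPlusMatching {V : Type} [Fintype V] [DecidableEq V] (k : ℕ) (H : Finset (Finset V)) : Prop :=
  ∃ (v : V) (M : Finset (Finset V)),
    (∀ e ∈ M, e.card = k ∧ v ∉ e) ∧
    (∀ e ∈ M, ∀ f ∈ M, e ≠ f → Disjoint e f) ∧
    (∀ e : Finset V, e.card = k → v ∉ e → ∃ f ∈ M, ¬ Disjoint e f) ∧
    H = univ.filter (fun e => e.card = k ∧ v ∈ e) ∪ M

/-- the bound of the question -/
def bound (k n : ℕ) : ℕ := (n - 1).choose (k - 1) + (n - 1) / k

/-- the statement which Q1 asks to prove or to disprove -/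
def Q1 : Prop :=
  ∀ k : ℕ, 3 ≤ k → ∃ n0 : ℕ, ∀ (V : Type) [Fintype V] [DecidableEq V], n0 ≤ Fintype.card V →
    ∀ H : Finset (Finset V), Uniform k H → NoTwoRegular k H →
      H.card ≤ bound k (Fintype.card V) ∧
      (H.card = bound k (Fintype.card V) ↔ IsStarPlusMatching k H)

/-- there is a suitable design on `n` points -/
def D (n : ℕ) : Prop :=
  ∃ (P : Type) (_ : Fintype P) (_ : DecidableEq P) (B : Finset (Finset P)), Fintype.card P = n ∧ LS 5 B

theorem step {m : ℕ} (hm : 0 < m) (h : D (2 ^ m + 1)) : D ((2 ^ m) ^ 3 + 1) := by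
  classical
  obtain ⟨Q, hQ1, hQ2, B, hQ, hB⟩ := h
  let _ : Fintype (GaloisField 2 (2 * m)) := Fintype.ofFinite _
  have hc : Fintype.card (GaloisField 2 (2 * m)) = (2 ^ m) ^ 2 := by
    rw [← Nat.card_eq_fintype_card, GaloisField.card 2 (2 * m) (by omega), ← pow_mul, mul_comm]
  let σ : GaloisField 2 (2 * m) →+* GaloisField 2 (2 * m) := iterateFrobenius (GaloisField 2 (2 * m)) 2 m
  have hσ : ∀ x, σ x = x ^ 2 ^ m := fun x => iterateFrobenius_def _ _ _
  have hσσ : ∀ x, σ (σ x) = x := by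
    intro x
    rw [hσ, hσ, ← pow_mul, ← sq, ← hc, FiniteField.pow_card]
  have hq : 1 < 2 ^ m := Nat.one_lt_two_pow (by omega)
  have hfix : (univ.filter (fun x : GaloisField 2 (2 * m) => σ x = x)).card ≤ 2 ^ m := by
    have hne : (Polynomial.X ^ 2 ^ m - Polynomial.X : Polynomial (GaloisField 2 (2 * m))) ≠ 0 :=
      FiniteField.X_pow_card_sub_X_ne_zero _ hq
    have h1 : univ.filter (fun x : GaloisField 2 (2 * m) => σ x = x)
        ⊆ (Polynomial.X ^ 2 ^ m - Polynomial.X : Polynomial (GaloisField 2 (2 * m))).roots.toFinset := by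
      intro x hx
      rw [Multiset.mem_toFinset, Polynomial.mem_roots hne, Polynomial.IsRoot.def, Polynomial.eval_sub,
        Polynomial.eval_pow, Polynomial.eval_X, ← hσ, (mem_filter.1 hx).2, sub_self]
    refine (card_le_card h1).trans ((Multiset.toFinset_card_le _).trans ?_)
    refine (Polynomial.card_roots' _).trans ?_
    rw [FiniteField.X_pow_card_sub_X_natDegree_eq _ hq]
  obtain ⟨L, hL⟩ := unital_LS σ hσσ hc hfix
  obtain ⟨B', hB'⟩ := compose hL hQ (by omega) hB
  exact ⟨Pt σ, inferInstance, inferInstance, B', card_pt σ hσσ hc hfix, hB'⟩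

theorem D_all (j : ℕ) : D (4 ^ 3 ^ j + 1) := by
  have key : ∀ j : ℕ, D (2 ^ (2 * 3 ^ j) + 1) := by
    intro j
    induction j with
    | zero => exact ⟨Fin 5, inferInstance, inferInstance, {univ}, by simp, base⟩
    | succ j ih =>
      have := step (by positivity) ih
      rw [← pow_mul] at this
      rw [pow_succ, ← mul_assoc]
      exact this
  have := key j
  rwa [pow_mul] at this

theorem exists_system (j : ℕ) : ∃ (V : Type) (_ : Fintype V) (_ : DecidableEq V) (H : Finset (Finset V)),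
    Fintype.card V = 4 ^ 3 ^ j + 1 ∧ Uniform 3 H ∧ NoTwoRegular 3 H ∧ H.card = (4 ^ 3 ^ j + 1).choose 2 := by
  obtain ⟨P, h1, h2, B, hP, hB⟩ := D_all j
  refine ⟨P, h1, h2, triples B, hP, fun e he => (mem_triples.1 he).1, ?_, by rw [card_triples hB, hP]⟩
  intro F hF hdeg hV
  exact no_two_regular hB F hF hdeg hV

theorem bound_lt {n : ℕ} (hn : 2 ≤ n) : bound 3 n + (2 * (n - 1) + 2) / 3 = n.choose 2 := by
  obtain ⟨m, rfl⟩ : ∃ m, n = m + 1 := ⟨n - 1, by omega⟩
  rw [bound, Nat.add_sub_cancel, show 3 - 1 = 1 + 1 from rfl, Nat.choose_succ_succ' m 1, Nat.choose_one_right]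
  omega

/-- **Main theorem.** -/
theorem result :
    ¬ Q1 ∧
    ∀ j : ℕ, ∃ (V : Type) (_ : Fintype V) (_ : DecidableEq V) (H : Finset (Finset V)),
      Fintype.card V = 4 ^ 3 ^ j + 1 ∧ Uniform 3 H ∧ NoTwoRegular 3 H ∧
      H.card = (Fintype.card V).choose 2 ∧
      3 * bound 3 (Fintype.card V) + 2 * (Fintype.card V - 1) ≤ 3 * H.card := by
  have h2 : ∀ j : ℕ, ∃ (V : Type) (_ : Fintype V) (_ : DecidableEq V) (H : Finset (Finset V)),
      Fintype.card V = 4 ^ 3 ^ j + 1 ∧ Uniform 3 H ∧ NoTwoRegular 3 H ∧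
      H.card = (Fintype.card V).choose 2 ∧
      3 * bound 3 (Fintype.card V) + 2 * (Fintype.card V - 1) ≤ 3 * H.card := by
    intro j
    obtain ⟨V, i1, i2, H, hV, hu, hH, hc⟩ := exists_system j
    refine ⟨V, i1, i2, H, hV, hu, hH, by rw [hc, hV], ?_⟩
    have h4 : 0 < 4 ^ 3 ^ j := by positivity
    have := bound_lt (n := 4 ^ 3 ^ j + 1) (by omega)
    rw [hV, hc, ← this]
    omega
  refine ⟨?_, h2⟩
  intro hQ
  obtain ⟨n0, hn0⟩ := hQ 3 le_rfl
  obtain ⟨V, i1, i2, H, hV, hu, hH, -, hb⟩ := h2 n0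
  have h3 : n0 < 3 ^ n0 := Nat.lt_pow_self (by norm_num)
  have h4 : 3 ^ n0 < 4 ^ 3 ^ n0 := Nat.lt_pow_self (by norm_num)
  have := (hn0 V (by omega) H hu hH).1
  omega

end Pool.Agent.Results.MP_bc9e10_co.NestedUnitals
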